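import Mathlib
import Pool.Agent.Helper18.EW.Goals4

/-!
# Packet EW-Wr

No element of a `k`-dimensional space of complex polynomials vanishes to order `k` at a general point.
-/

set_option autoImplicit false

namespace Pool.Agent.Helper13.EW

open Polynomial

/-- two nonzero polynomials with vanishing Wronskian have the same degree -/
theorem wr_degree {f g : ℂ[X]} (hf : f ≠ 0) (hg : g ≠ 0)
    (h : derivative f * g = f * derivative g) : f.natDegree = g.natDegree := by
  have hX : ∀ (p : ℂ[X]) (k : ℕ), (X * derivative p).coeff k = (k : ℂ) * p.coeff k := by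
    intro p k
    cases k with
    | zero => simp
    | succ k =>
      rw [coeff_X_mul, coeff_derivative]
      push_cast
      ring
  have hd : ∀ p : ℂ[X], (X * derivative p).natDegree ≤ p.natDegree := by
    intro p
    rw [natDegree_le_iff_coeff_eq_zero]
    intro k hk
    rw [hX, coeff_eq_zero_of_natDegree_lt hk, mul_zero]
  have h1 : (X * derivative f * g).coeff (f.natDegree + g.natDegree) =
      (X * derivative f).coeff f.natDegree * g.coeff g.natDegree :=
    coeff_mul_add_eq_of_natDegree_le (hd f) le_rfl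
  have h2 : (f * (X * derivative g)).coeff (f.natDegree + g.natDegree) =
      f.coeff f.natDegree * (X * derivative g).coeff g.natDegree :=
    coeff_mul_add_eq_of_natDegree_le le_rfl (hd g)
  have h3 : X * derivative f * g = f * (X * derivative g) := by
    linear_combination X * h
  rw [h3, h2, hX, hX] at h1
  have ha : f.coeff f.natDegree ≠ 0 := by
    rw [coeff_natDegree]; exact leadingCoeff_ne_zero.mpr hf
  have hb : g.coeff g.natDegree ≠ 0 := by
    rw [coeff_natDegree]; exact leadingCoeff_ne_zero.mpr hg
  have h4 : ((f.natDegree : ℂ) - g.natDegree) * (f.coeff f.natDegree * g.coeff g.natDegree) = 0 := by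
    linear_combination -h1
  rcases mul_eq_zero.mp h4 with h5 | h5
  · exact_mod_cast sub_eq_zero.mp h5
  · exact absurd h5 (mul_ne_zero ha hb)

/-- polynomials with vanishing Wronskian are proportional -/
theorem wr_prop {f g : ℂ[X]} (hg : g ≠ 0)
    (h : derivative f * g = f * derivative g) : ∃ c : ℂ, f = C c * g := by
  by_cases hf : f = 0
  · exact ⟨0, by simp [hf]⟩
  have hdeg := wr_degree hf hg h
  have hb : g.coeff g.natDegree ≠ 0 := by
    rw [coeff_natDegree]; exact leadingCoeff_ne_zero.mpr hg
  refine ⟨f.coeff g.natDegree / g.coeff g.natDegree, ?_⟩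
  set c : ℂ := f.coeff g.natDegree / g.coeff g.natDegree with hc
  by_contra hne
  have h0 : f - C c * g ≠ 0 := sub_ne_zero.mpr hne
  have h1 : derivative (f - C c * g) * g = (f - C c * g) * derivative g := by
    rw [derivative_sub, derivative_C_mul]
    linear_combination h
  have h2 := wr_degree h0 hg h1
  have h3 : (f - C c * g).coeff (f - C c * g).natDegree ≠ 0 := by
    rw [coeff_natDegree]; exact leadingCoeff_ne_zero.mpr h0
  apply h3
  rw [h2, coeff_sub, coeff_C_mul, hc, div_mul_cancel₀ _ hb, sub_self]

/-- the Wronskian with a fixed polynomial -/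
noncomputable def wrMap (g : ℂ[X]) : ℂ[X] →ₗ[ℂ] ℂ[X] where
  toFun f := derivative f * g - f * derivative g
  map_add' a b := by rw [derivative_add]; ring
  map_smul' c a := by
    rw [derivative_smul, RingHom.id_apply, smul_mul_assoc, smul_mul_assoc, ← smul_sub]

theorem wrMap_apply (g f : ℂ[X]) : wrMap g f = derivative f * g - f * derivative g := rfl

theorem wr_aux : ∀ (v : ℕ) (V : Submodule ℂ ℂ[X]), Module.Finite ℂ V →
    Module.finrank ℂ V ≤ v →
    ∃ W : ℂ[X], W ≠ 0 ∧ ∀ t : ℂ, W.eval t ≠ 0 → ∀ f ∈ V, (X - C t) ^ v ∣ f → f = 0 := by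
  intro v
  induction v with
  | zero =>
    intro V hV hr
    refine ⟨1, one_ne_zero, ?_⟩
    intro t _ f hf _
    have := hV
    have h0 : Module.finrank ℂ V = 0 := Nat.le_zero.mp hr
    rw [Submodule.finrank_eq_zero] at h0
    rw [h0] at hf
    exact (Submodule.mem_bot ℂ).mp hf
  | succ v ih =>
    intro V hV hr
    have := hV
    by_cases hb : V = ⊥
    · refine ⟨1, one_ne_zero, ?_⟩
      intro t _ f hf _
      rw [hb] at hf
      exact (Submodule.mem_bot ℂ).mp hf
    obtain ⟨g, hgV, hg⟩ := Submodule.exists_mem_ne_zero_of_ne_bot hb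
    set L : V →ₗ[ℂ] ℂ[X] := (wrMap g).domRestrict V with hL
    have hrn := LinearMap.finrank_range_add_finrank_ker L
    have hker : 1 ≤ Module.finrank ℂ (LinearMap.ker L) := by
      have hmem : (⟨g, hgV⟩ : V) ∈ LinearMap.ker L := by
        rw [LinearMap.mem_ker, hL, LinearMap.domRestrict_apply, wrMap_apply]
        ring
      have hne : LinearMap.ker L ≠ ⊥ := by
        intro hbot
        rw [hbot, Submodule.mem_bot] at hmem
        exact hg (by simpa using congrArg Subtype.val hmem)
      have hpos : Module.finrank ℂ (LinearMap.ker L) ≠ 0 := by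
        intro h0
        exact hne (Submodule.finrank_eq_zero.mp h0)
      omega
    have hle : Module.finrank ℂ (LinearMap.range L) ≤ v := by omega
    obtain ⟨W, hW, hWt⟩ := ih (LinearMap.range L) inferInstance hle
    refine ⟨W * g, mul_ne_zero hW hg, ?_⟩
    intro t ht f hf hdiv
    rw [eval_mul] at ht
    have ht1 : W.eval t ≠ 0 := left_ne_zero_of_mul ht
    have ht2 : g.eval t ≠ 0 := right_ne_zero_of_mul ht
    have hd1 : (X - C t) ^ v ∣ derivative f := by
      have := pow_sub_one_dvd_derivative_of_pow_dvd hdiv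
      simpa using this
    have hd2 : (X - C t) ^ v ∣ f := (pow_dvd_pow _ (Nat.le_succ v)).trans hdiv
    have hd3 : (X - C t) ^ v ∣ wrMap g f := by
      rw [wrMap_apply]
      exact dvd_sub (hd1.mul_right _) (hd2.mul_right _)
    have hz : wrMap g f = 0 :=
      hWt t ht1 (wrMap g f) ⟨⟨f, hf⟩, rfl⟩ hd3
    rw [wrMap_apply, sub_eq_zero] at hz
    obtain ⟨c, hc⟩ := wr_prop hg hz
    have hdt : (X - C t) ∣ f := (dvd_pow_self _ (Nat.succ_ne_zero v)).trans hdiv
    have hroot : f.eval t = 0 := dvd_iff_isRoot.mp hdt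
    rw [hc, eval_mul, eval_C] at hroot
    have hc0 : c = 0 := by
      rcases mul_eq_zero.mp hroot with h | h
      · exact h
      · exact absurd h ht2
    rw [hc, hc0, C_0, zero_mul]

/-- GoalWr -/
theorem goalWr : Pool.Agent.Helper18.EW.GoalWr := by
  intro k V hV hr
  obtain ⟨W, hW, hWt⟩ := wr_aux k V hV hr
  obtain ⟨t, ht⟩ : ∃ t : ℂ, W.eval t ≠ 0 := by
    by_contra hcon
    push Not at hcon
    exact hW (Polynomial.funext (fun r => by rw [hcon r, eval_zero]))
  exact ⟨t, fun f hf hd => hWt t ht f hf hd⟩

end Pool.Agent.Helper13.EW
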