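import Mathlib
import Pool.Agent.Helper18.EW.Goals2
import Pool.Agent.Helper62.Hw.H12

/-! Project EW, packet Z12: the last rows, too many conditions. -/

set_option autoImplicit false

namespace Pool.Agent.Helper13.EW

open Finset
open Pool.Agent.Helper18.EW
open Pool.Agent.Helper43.Hw (T T_zero na va lz Play oo sk U Pn nx bb GoalH1 GoalH2 GoalH4)
open Pool.Agent.Helper43.Hw.PkH12 (nx_eq na_succ oo_step κ_mono sum_sk last_zero)

section

variable {μ R N K b β s : ℕ} {W : ℤ} {L o k D S n κ x : ℕ → ℕ}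

/-- the excess of the load -/
def hh (μ R N : ℕ) (L κ x : ℕ → ℕ) (z : ℕ) : ℤ := (lz μ R N κ x z : ℤ) - L z

/-- needed conditions minus old points alive -/
def FF (μ R N β : ℕ) (o κ x : ℕ → ℕ) (z : ℕ) : ℤ :=
  (N : ℤ) - κ z - β - o z - oo μ R κ x z

theorem stepI (h4 : GoalH4) (hμ : 1 ≤ μ) (hR : μ + 2 ≤ R) (hP : Play μ R N κ x)
    (hX : Ext μ R N K b β s W L o k D S n) {z : ℕ}
    (hz : z + 1 < R) (hs : s ≤ z) (hκ : κ z < N) :
    (bb μ R N κ x z : ℤ) - L (z + 1) =
      hh μ R N L κ x z + FF μ R N β o κ x z - sk μ κ x z - k z := by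
  have hJ : R ≤ z + 1 + μ := by have := hX.Js; omega
  have h := (h4 μ R N κ x hμ hR hP z hz).2.2.2.1 hκ
  rw [nx_eq hP (by omega) hJ hκ, na_succ hJ, mul_add, mul_one] at h
  have hi := hX.inc z hs hz
  unfold hh FF
  generalize (N - 1 - κ z) * na μ R z = A at h
  omega

theorem F_step (h1 : GoalH1) (hμ : 1 ≤ μ) (hR : μ + 2 ≤ R) (hP : Play μ R N κ x)
    (hX : Ext μ R N K b β s W L o k D S n) {z : ℕ} (hs : s ≤ z)
    (hz : z + 1 < R) :
    FF μ R N β o κ x z - 2 * ((κ (z + 1) : ℤ) - κ z) ≤ FF μ R N β o κ x (z + 1) := by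
  have h := oo_step h1 hμ hR hP hz
  have h2 := hP.mono z hz
  have h3 := hX.oa z hs hz
  unfold FF
  omega

theorem F_le (h1 : GoalH1) (hμ : 1 ≤ μ) (hR : μ + 2 ≤ R) (hP : Play μ R N κ x)
    (hX : Ext μ R N K b β s W L o k D S n) {a c : ℕ} (hs : s ≤ a)
    (hab : a ≤ c) (hb : c < R) :
    FF μ R N β o κ x a - 2 * ((κ c : ℤ) - κ a) ≤ FF μ R N β o κ x c := by
  induction c, hab using Nat.le_induction with
  | base => simp
  | succ c hab ih =>
    have i1 := ih (by omega)
    have i2 := F_step h1 hμ hR hP hX (z := c) (by omega) hb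
    linarith

/-- the not active rows -/
theorem NA (hG : Gr μ R N (s - 1) L κ x) {z : ℕ} (hs : s ≤ z) (hz : z + 2 < R) (hκ : κ z < N)
    (hb : L (z + 1) ≤ bb μ R N κ x z) :
    lz μ R N κ x (z + 1) = bb μ R N κ x z ∧
      ((κ (z + 1) = κ z ∧ x (z + 1) = nx μ R x z) ∨
        (κ (z + 1) = κ z + 1 ∧ nx μ R x z = μ ∧ (κ (z + 1) < N → x (z + 1) = na μ R (z + 1)))) := by
  rcases hG z (by omega) hz hκ with h | h
  · exact h.2
  · exact absurd h.1 (by omega)

/-- at most one jump in consecutive not active rows -/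
theorem jump (hP : Play μ R N κ x) (hG : Gr μ R N (s - 1) L κ x) {a c : ℕ} (hs : s ≤ a)
    (hab : a ≤ c) (hb : c + 1 < R) (hJ : R ≤ a + 1 + μ)
    (hκ : ∀ j, a ≤ j → j < c → κ j < N)
    (hna : ∀ j, a ≤ j → j < c → L (j + 1) ≤ bb μ R N κ x j) :
    κ c = κ a ∨ (κ c = κ a + 1 ∧ (κ c < N → x c = na μ R c)) := by
  induction c, hab using Nat.le_induction with
  | base => left; rfl
  | succ c hab ih =>
    have hκb := hκ c hab (by omega)
    obtain ⟨-, h | h⟩ := NA hG (z := c) (by omega) (by omega) hκb (hna c hab (by omega))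
    · rcases ih (by omega) (fun j h1 h2 => hκ j h1 (by omega)) (fun j h1 h2 => hna j h1 (by omega))
        with i | i
      · left; omega
      · right
        refine ⟨by omega, fun _ => ?_⟩
        rw [h.2, nx_eq hP (by omega) (by omega) hκb, i.2 hκb, na_succ (by omega)]
    · rcases ih (by omega) (fun j h1 h2 => hκ j h1 (by omega)) (fun j h1 h2 => hna j h1 (by omega))
        with i | i
      · right
        exact ⟨by omega, h.2.2⟩
      · exfalso
        have h3 := h.2.1
        rw [nx_eq hP (by omega) (by omega) hκb, i.2 hκb] at h3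
        unfold na at h3
        omega

/-- rows with `κ < N` have enough -/
theorem h_nonneg (hP : Play μ R N κ x) (hG : Gr μ R N (s - 1) L κ x) {y z : ℕ} (hs : s ≤ y)
    (hE : Ex μ R N L κ x y) (hz : z + 1 < R) (hκ : κ z < N) :
    L z ≤ lz μ R N κ x z := by
  rcases Nat.lt_or_ge y z with h | h
  · obtain ⟨z', rfl⟩ : ∃ z', z = z' + 1 := ⟨z - 1, by omega⟩
    have hm := hP.mono z' (by omega)
    rcases hG z' (by omega) (by omega) (by omega) with g | g
    · rw [g.2.1]; exact g.1
    · rcases g.2 with g2 | g2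
      · rw [g2]
      · omega
  · exact (hE.2.2 z h).ge

/-- the last row with `h = 0` -/
theorem back (h4 : GoalH4) (hμ : 1 ≤ μ) (hR : μ + 2 ≤ R) (hP : Play μ R N κ x)
    (hX : Ext μ R N K b β s W L o k D S n)
    (hG : Gr μ R N (s - 1) L κ x) {y z : ℕ} (hs : s ≤ y) (hE : Ex μ R N L κ x y)
    (hyz : y < z) (hz : z + 1 < R) (hκ : κ z < N) (hp : L z < lz μ R N κ x z) :
    ∃ y0, y ≤ y0 ∧ y0 < z ∧ 1 ≤ FF μ R N β o κ x y0 ∧
      ∀ j, y0 ≤ j → j < z → L (j + 1) ≤ bb μ R N κ x j := by
  obtain ⟨y0, a1, a2, a3, a4⟩ := last_zero (p := fun j => lz μ R N κ x j = L j) hyz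
    (hE.2.2 y le_rfl)
  have hκj : ∀ j, j ≤ z → κ j < N := fun j hj => lt_of_le_of_lt (κ_mono hP hj (by omega)) hκ
  have hpos : ∀ j, y0 < j → j ≤ z → L j < lz μ R N κ x j := by
    intro j h1 h2
    rcases Nat.lt_or_ge j z with h3 | h3
    · have h5 := a4 j h1 h3
      have h6 := h_nonneg hP hG hs hE (z := j) (by omega) (hκj j h2)
      omega
    · have : j = z := by omega
      rw [this]; exact hp
  have hna : ∀ j, y0 ≤ j → j < z → L (j + 1) ≤ bb μ R N κ x j ∧
      lz μ R N κ x (j + 1) = bb μ R N κ x j := by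
    intro j h1 h2
    have h3 := hpos (j + 1) (by omega) (by omega)
    have h5 := hκj (j + 1) (by omega)
    rcases hG j (by omega) (by omega) (hκj j (by omega)) with g | g
    · exact ⟨g.1, g.2.1⟩
    · exfalso
      omega
  refine ⟨y0, a1, a2, ?_, fun j h1 h2 => (hna j h1 h2).1⟩
  have h3 := hpos (y0 + 1) (by omega) (by omega)
  rw [(hna y0 le_rfl a2).2] at h3
  have h5 := stepI h4 hμ hR hP hX (z := y0) (by omega) (by omega) (hκj y0 (by omega))
  unfold hh at h5
  rw [a3] at h5
  omega

/-- the bound of the excess -/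
theorem h_bound (h1 : GoalH1) (h4 : GoalH4) (hμ : 1 ≤ μ) (hR : μ + 2 ≤ R) (hP : Play μ R N κ x)
    (hX : Ext μ R N K b β s W L o k D S n)
    (hG : Gr μ R N (s - 1) L κ x) {y z r : ℕ} (hs : s ≤ y) (hE : Ex μ R N L κ x y)
    (hyz : y < z) (hz : z ≤ r) (hr : r + 1 < R) (hκ : κ r < N)
    (hb : bb μ R N κ x r ≤ L (r + 1)) :
    lz μ R N κ x z ≤ L z + (Pn μ R x y + 2 * (R - 1 - y) + ∑ j ∈ Ico y (R - 1), k j) := by
  have hJ : R ≤ y + 1 + μ := by have := hX.Js; omega
  have hκj : ∀ j, j ≤ r → κ j < N := fun j hj => lt_of_le_of_lt (κ_mono hP hj (by omega)) hκ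
  by_cases hp : L z < lz μ R N κ x z
  swap
  · omega
  obtain ⟨y0, a1, a2, a3, a4⟩ := back h4 hμ hR hP hX hG hs hE hyz (by omega) (hκj z hz) hp
  -- the first `e` after `z`
  classical
  have hex : ∃ e, z ≤ e ∧ bb μ R N κ x e ≤ L (e + 1) := ⟨r, hz, hb⟩
  obtain ⟨e1, e2⟩ := Nat.find_spec hex
  have e3 : ∀ j, z ≤ j → j < Nat.find hex → L (j + 1) < bb μ R N κ x j := by
    intro j h1 h2
    have := Nat.find_min hex h2
    by_contra h3
    exact this ⟨h1, by omega⟩
  have e4 : Nat.find hex ≤ r := Nat.find_min' hex ⟨hz, hb⟩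
  set e := Nat.find hex with he
  have hna : ∀ j, y0 ≤ j → j < e → L (j + 1) ≤ bb μ R N κ x j := by
    intro j h1 h2
    rcases Nat.lt_or_ge j z with h3 | h3
    · exact a4 j h1 h3
    · exact (e3 j h3 h2).le
  have hF : ∀ j, z ≤ j → j ≤ e → -1 ≤ FF μ R N β o κ x j := by
    intro j g1 g2
    have i1 := F_le h1 hμ hR hP hX (a := y0) (c := j) (by omega) (by omega) (by omega)
    have i2 := jump hP hG (a := y0) (c := j) (by omega) (by omega) (by omega) (by omega)
      (fun i _ _ => hκj i (by omega)) (fun i k1 k2 => hna i k1 (by omega))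
    have i3 : (κ j : ℤ) - κ y0 ≤ 1 := by
      rcases i2 with i | i
      · rw [i]; simp
      · rw [i.1]; push_cast; linarith
    linarith
  have hh1 : ∀ m, z ≤ m → m ≤ e →
      hh μ R N L κ x z ≤ hh μ R N L κ x m + ∑ j ∈ Ico z m, ((sk μ κ x j : ℤ) + k j + 1) := by
    intro m hk
    induction m, hk using Nat.le_induction with
    | base => intro _; simp
    | succ m hk ih =>
      intro hke
      have i1 := ih (by omega)
      rw [sum_Ico_succ_top hk]
      have i2 := stepI h4 hμ hR hP hX (z := m) (by omega) (by omega) (hκj m (by omega))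
      have i3 := (NA hG (z := m) (by omega) (by omega) (hκj m (by omega))
        (e3 m hk (by omega)).le).1
      have i4 := hF m hk (by omega)
      have i5 : hh μ R N L κ x (m + 1) = (bb μ R N κ x m : ℤ) - L (m + 1) := by
        unfold hh
        rw [i3]
      rw [i5]
      linarith
  have i1 := hh1 e e1 le_rfl
  have i2 := stepI h4 hμ hR hP hX (z := e) (by omega) (by omega) (hκj e e4)
  have i4 := hF e e1 le_rfl
  have i5 : hh μ R N L κ x z ≤ ∑ j ∈ Ico z (e + 1), ((sk μ κ x j : ℤ) + k j + 1) := by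
    rw [sum_Ico_succ_top e1]
    have : (bb μ R N κ x e : ℤ) ≤ L (e + 1) := by exact_mod_cast e2
    linarith
  have i6 := sum_sk (μ := μ) (R := R) (κ := κ) (x := x) (y := y) (z := z) (e := e + 1) hyz.le
    (by omega)
  rw [sum_add_distrib, sum_add_distrib, sum_const, Nat.card_Ico, nsmul_eq_mul, mul_one] at i5
  have i7 : (∑ j ∈ Ico z (e + 1), (sk μ κ x j : ℤ)) ≤ ((Pn μ R x y + (R - 1 - y) : ℕ) : ℤ) := by
    exact_mod_cast i6
  have i8 : ∑ j ∈ Ico z (e + 1), k j ≤ ∑ j ∈ Ico y (R - 1), k j := by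
    apply sum_le_sum_of_subset
    intro j hj
    rw [mem_Ico] at hj ⊢
    omega
  have i9 : (∑ j ∈ Ico z (e + 1), (k j : ℤ)) ≤ ((∑ j ∈ Ico y (R - 1), k j : ℕ) : ℤ) := by
    exact_mod_cast i8
  unfold hh at i5
  omega

end

theorem goalZ12 (h1 : GoalH1) (h2 : GoalH2) (h4 : GoalH4) : GoalZ12 := by
  intro μ R N K b β s W L o k D S n κ x y hμ hR hβ hX hP hG hE hs hy hW
  have hyN := hE.2.1
  have hJs := hX.Js
  -- the sum of the lengths
  have hsumL : ∑ z ∈ range R, (L z : ℤ) = N * T μ + W := by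
    have ht := hX.tot (R - 1) (by omega) (by omega)
    have hD := hX.Dn (R - 1) (by omega) (by omega)
    have hS := hX.Sq (R - 1) (by omega) (by omega)
    rw [Nat.sub_self, T_zero, zero_mul] at hD
    rw [Nat.sub_self, zero_mul] at hS
    have hS0 : S (R - 1) = 0 := by omega
    have hD0 : D (R - 1) = 0 := by omega
    have hRR : R - (R - 1) = 1 := by omega
    rw [hS0, hD0, Nat.sub_self, T_zero, hRR] at ht
    have hR1 : R = (R - 1) + 1 := by omega
    rw [hR1, sum_range_succ]
    push_cast at ht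
    linarith
  -- the lengths increase
  have hLmono : ∀ a, s ≤ a → ∀ c, a ≤ c → c < R → L a ≤ L c := by
    intro a ha c hac
    induction c, hac using Nat.le_induction with
    | base => intro _; exact le_rfl
    | succ c hac ih =>
      intro hc
      have i1 := ih (by omega)
      have i2 := hX.inc c (by omega) hc
      omega
  -- the main counting
  have main : ∀ r, y ≤ r → r + 1 < R → κ r < N → bb μ R N κ x r ≤ L (r + 1) →
      (∀ z, r < z → z < R → lz μ R N κ x z ≤ L z) → False := by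
    intro r hyr hr hκ hb hlate
    have hall : ∀ z ∈ range R, lz μ R N κ x z ≤ L z +
        (if z ∈ Ioc y r then (Pn μ R x y + 2 * (R - 1 - y) + ∑ j ∈ Ico y (R - 1), k j) else 0) := by
      intro z hz
      rw [mem_range] at hz
      by_cases h : z ∈ Ioc y r
      · rw [if_pos h]
        rw [mem_Ioc] at h
        exact h_bound h1 h4 hμ hR hP hX hG hs hE h.1 h.2 hr hκ hb
      · rw [if_neg h]
        rw [mem_Ioc] at h
        rcases Nat.lt_or_ge y z with h3 | h3
        · exact hlate z (by omega) hz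
        · exact (hE.2.2 z h3).le
    have hsum := sum_le_sum hall
    rw [(h2 μ R N κ x hμ hR hP).2.2.2, sum_add_distrib] at hsum
    rw [← sum_filter, sum_const, smul_eq_mul] at hsum
    have hc : ((range R).filter (fun z => z ∈ Ioc y r)).card ≤ R - 1 - y := by
      have : (range R).filter (fun z => z ∈ Ioc y r) ⊆ Ioc y r := fun z hz => (mem_filter.1 hz).2
      refine (card_le_card this).trans ?_
      rw [Nat.card_Ioc]
      omega
    have hm := Nat.mul_le_mul_right (Pn μ R x y + 2 * (R - 1 - y) + ∑ j ∈ Ico y (R - 1), k j) hc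
    have hkq := hX.kq y hs (by omega)
    have hfin : N * T μ ≤ ∑ z ∈ range R, L z + (R - 1 - y) *
        (Pn μ R x y + 2 * (R - 1 - y) + ∑ j ∈ Ico y (R - 1), k j) := by omega
    have hfin2 : (N * T μ : ℤ) ≤ ∑ z ∈ range R, (L z : ℤ) + ((R - 1 - y : ℕ) : ℤ) *
        (Pn μ R x y + 2 * ((R - 1 - y : ℕ) : ℤ) + ((∑ j ∈ Ico y (R - 1), k j : ℕ) : ℤ)) := by
      exact_mod_cast hfin
    rw [hsumL] at hfin2
    have hkq2 : (2 : ℤ) ^ 24 * ((∑ j ∈ Ico y (R - 1), k j : ℕ) : ℤ) ≤
        2 ^ 24 * K + ((R - y : ℕ) : ℤ) * b := by exact_mod_cast hkq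
    push_cast at hW
    have hw0 : (0 : ℤ) ≤ ((R - 1 - y : ℕ) : ℤ) := Int.natCast_nonneg _
    have hm2 := mul_le_mul_of_nonneg_left hkq2 hw0
    generalize ((R - 1 - y : ℕ) : ℤ) = w at hW hm2 hfin2
    generalize ((R - y : ℕ) : ℤ) = w' at hW hm2
    push_cast at hm2 hfin2
    generalize ∑ j ∈ Ico y (R - 1), (k j : ℤ) = sumk at hm2 hfin2
    nlinarith
  by_cases hN : ∃ r, r + 1 < R ∧ κ r = N
  · -- `κ` reaches `N`
    exfalso
    classical
    obtain ⟨r1, r2⟩ := Nat.find_spec hN
    have r3 : ∀ j, j < Nat.find hN → κ j < N := by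
      intro j hj
      have h3 := Nat.find_min hN hj
      have h5 := hP.le j (by omega)
      by_contra h6
      exact h3 ⟨by omega, by omega⟩
    set r := Nat.find hN with hr
    have hyr : y < r := by
      by_contra h
      have := κ_mono hP (a := r) (b := y) (by omega) (by omega)
      omega
    obtain ⟨r', hr'⟩ : ∃ r', r = r' + 1 := ⟨r - 1, by omega⟩
    rw [hr'] at r1 r2 hyr r3
    have hκr := r3 r' (by omega)
    have hb : bb μ R N κ x r' ≤ L (r' + 1) := by
      by_contra hb
      obtain ⟨n1, n2⟩ := NA hG (z := r') (by omega) (by omega) hκr (by omega)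
      have n3 : κ (r' + 1) = κ r' + 1 := by
        rcases n2 with n | n
        · omega
        · exact n.1
      have s1 := stepI h4 hμ hR hP hX (z := r') (by omega) (by omega) hκr
      have hF : FF μ R N β o κ x r' ≤ 0 := by
        unfold FF
        omega
      have hpos : L r' < lz μ R N κ x r' := by
        unfold hh at s1
        omega
      have hyr' : y < r' := by
        by_contra h
        have : r' = y := by omega
        rw [this, hE.2.2 y le_rfl] at hpos
        omega
      obtain ⟨y0, a1, a2, a3, a4⟩ := back h4 hμ hR hP hX hG hs hE hyr' (by omega) hκr hpos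
      have i2 := jump hP hG (a := y0) (c := r' + 1) (by omega) (by omega) (by omega) (by omega)
        (fun i _ _ => r3 i (by omega)) (fun i k1 k2 => by
          rcases Nat.lt_or_ge i r' with h | h
          · exact a4 i k1 h
          · have : i = r' := by omega
            rw [this]; omega)
      unfold FF at a3
      omega
    have hrl : lz μ R N κ x (r' + 1) ≤ L (r' + 1) := by
      rcases hG r' (by omega) (by omega) hκr with g | g
      · rw [g.2.1]; exact hb
      · rcases g.2 with g2 | g2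
        · exact g2.le
        · exact g2.2
    have hlate : ∀ z, r' + 1 ≤ z → z < R → κ z = N ∧ lz μ R N κ x z ≤ L (r' + 1) := by
      intro z hz
      induction z, hz using Nat.le_induction with
      | base => intro _; exact ⟨r2, hrl⟩
      | succ z hz ih =>
        intro hzR
        obtain ⟨i1, i2⟩ := ih (by omega)
        have i3 := (h4 μ R N κ x hμ hR hP z hzR).2.2.1 i1
        have i4 := hP.mono z hzR
        have i5 := hP.le (z + 1) hzR
        exact ⟨by omega, by omega⟩
    refine main r' (by omega) (by omega) hκr hb fun z hz1 hz2 => ?_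
    exact (hlate z (by omega) hz2).2.trans (hLmono (r' + 1) (by omega) z (by omega) hz2)
  · -- `κ` does not reach `N`
    have hκ : ∀ j, j + 1 < R → κ j < N := by
      intro j hj
      have h5 := hP.le j (by omega)
      by_contra h6
      exact hN ⟨j, hj, by omega⟩
    intro z hz
    rcases Nat.lt_or_ge (z + 1) R with h | h
    · exact h_nonneg hP hG hs hE h (hκ z h)
    · by_contra hbad
      have hzR : z = R - 1 := by omega
      obtain ⟨r, hr⟩ : ∃ r, R = r + 2 := ⟨R - 2, by omega⟩
      have hz2 : z = r + 1 := by omega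
      have h5 := (h4 μ R N κ x hμ hR hP r (by omega)).2.2.2.2 (hκ r (by omega)) (by omega)
      rw [hz2] at hbad
      refine main r (by omega) (by omega) (hκ r (by omega)) (by omega) fun z' h6 h7 => ?_
      have : z' = r + 1 := by omega
      rw [this]
      omega

end Pool.Agent.Helper13.EW
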